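import Pool.Agent.Helper88.SE.Q_main2
import Pool.Agent.Helper88.SE.P_Ic2
import Pool.Agent.Helper88.SE3.P_fins

set_option autoImplicit false
open MeasureTheory

namespace Pool.Agent.Results.MP_e739cf_an.SecondOrderTermAtMostHexagonal

/-- For `0 < s < 2` the minimal Riesz `s`-energy of `N` points on `S²` has the second-order
asymptotics `C(s) N² + c N^(1+s/2) (1 + o(1))` with a nonzero (negative) constant `c`,
`α = 1 + s/2` is the only exponent with a nonzero constant, and `c` is at most the value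
`6 (8√3π)^(-s/2) ζ(s/2) (ζ(s/2,1/3) - ζ(s/2,2/3))` given by the hexagonal lattice. -/
theorem result (s : ℝ) (hs : 0 < s) (hs2 : s < 2) :
    ∃ z l : ℝ, riemannZeta (((s / 2 : ℝ)) : ℂ) = (z : ℂ) ∧
      HurwitzZeta.hurwitzZeta ((1 / 3 : ℝ) : UnitAddCircle) (((s / 2 : ℝ)) : ℂ) -
        HurwitzZeta.hurwitzZeta ((2 / 3 : ℝ) : UnitAddCircle) (((s / 2 : ℝ)) : ℂ) = (l : ℂ) ∧
    ∃ c : ℝ, c < 0 ∧ c ≤ 6 * (8 * Real.sqrt 3 * Real.pi) ^ (-(s / 2)) * z * l ∧
      Filter.Tendsto
        (fun N : ℕ =>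
          (sInf {e : ℝ | ∃ x : Fin N → Metric.sphere (0 : EuclideanSpace ℝ (Fin 3)) 1,
              Function.Injective x ∧
              e = ∑ i, ∑ j ∈ Finset.univ.erase i,
                ‖((x i : EuclideanSpace ℝ (Fin 3)) - (x j : EuclideanSpace ℝ (Fin 3)))‖ ^ (-s)}
            - 2 ^ (1 - s) / (2 - s) * (N : ℝ) ^ 2) / (N : ℝ) ^ (1 + s / 2))
        Filter.atTop (nhds c) ∧
      ∀ α c' : ℝ, c' ≠ 0 →
        Filter.Tendsto
          (fun N : ℕ =>
            (sInf {e : ℝ | ∃ x : Fin N → Metric.sphere (0 : EuclideanSpace ℝ (Fin 3)) 1,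
                Function.Injective x ∧
                e = ∑ i, ∑ j ∈ Finset.univ.erase i,
                  ‖((x i : EuclideanSpace ℝ (Fin 3)) - (x j : EuclideanSpace ℝ (Fin 3)))‖ ^ (-s)}
              - 2 ^ (1 - s) / (2 - s) * (N : ℝ) ^ 2) / (N : ℝ) ^ α)
          Filter.atTop (nhds c') →
        α = 1 + s / 2 ∧ c' = c := by
  obtain ⟨c, hc, hlim⟩ := Pool.Agent.Helper88.SE.main2 2 (by norm_num) s hs (by exact_mod_cast hs2)
  have hF : ∀ N : ℕ, Pool.Agent.Helper88.SE.F 2 s N =
      sInf {e : ℝ | ∃ x : Fin N → Metric.sphere (0 : EuclideanSpace ℝ (Fin 3)) 1,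
              Function.Injective x ∧
              e = ∑ i, ∑ j ∈ Finset.univ.erase i,
                ‖((x i : EuclideanSpace ℝ (Fin 3)) - (x j : EuclideanSpace ℝ (Fin 3)))‖ ^ (-s)}
            - 2 ^ (1 - s) / (2 - s) * (N : ℝ) ^ 2 := by
    intro N
    have hset : {e : ℝ | ∃ x : Fin N → Pool.Agent.Helper88.SE.S 2, Function.Injective x ∧
        e = Pool.Agent.Helper88.SE.En s x} =
        {e : ℝ | ∃ x : Fin N → Metric.sphere (0 : EuclideanSpace ℝ (Fin 3)) 1,
              Function.Injective x ∧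
              e = ∑ i, ∑ j ∈ Finset.univ.erase i,
                ‖((x i : EuclideanSpace ℝ (Fin 3)) - (x j : EuclideanSpace ℝ (Fin 3)))‖ ^ (-s)} := by
      ext e
      constructor
      · rintro ⟨x, hx, rfl⟩
        exact ⟨x, hx, Pool.Agent.Helper88.SE.En_eq s hs x⟩
      · rintro ⟨x, hx, rfl⟩
        exact ⟨x, hx, (Pool.Agent.Helper88.SE.En_eq s hs x).symm⟩
    unfold Pool.Agent.Helper88.SE.F Pool.Agent.Helper88.SE.Em
    rw [hset, Pool.Agent.Helper88.SE.Ic2 s hs hs2]
    ring
  have hlim2 : Filter.Tendsto (fun N : ℕ => Pool.Agent.Helper88.SE.F 2 s N /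
      (N : ℝ) ^ (1 + s / 2)) Filter.atTop (nhds c) := by
    have := hlim
    push_cast at this
    exact this
  obtain ⟨z, l, hz, hl, hup⟩ := Pool.Agent.Helper88.SE.fins s hs hs2 c hlim2
  refine ⟨z, l, hz, hl, c, hc, hup, ?_, ?_⟩
  · refine hlim2.congr fun N => ?_
    rw [hF N]
  · intro α c' hc' hlim'
    have hlim3 : Filter.Tendsto (fun N : ℕ => Pool.Agent.Helper88.SE.F 2 s N /
        (N : ℝ) ^ α) Filter.atTop (nhds c') := by
      refine hlim'.congr fun N => ?_
      rw [hF N]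
    -- the quotient of the two sequences is a power of `N`
    have hq : Filter.Tendsto (fun N : ℕ => (N : ℝ) ^ (α - (1 + s / 2))) Filter.atTop
        (nhds (c / c')) := by
      have h := hlim2.div hlim3 hc'
      have hne : ∀ᶠ N : ℕ in Filter.atTop, Pool.Agent.Helper88.SE.F 2 s N /
          (N : ℝ) ^ (1 + s / 2) ≠ 0 := hlim2.eventually_ne hc.ne
      refine h.congr' ?_
      filter_upwards [hne, Filter.eventually_ge_atTop 1] with N hN hN1
      have hN0 : (0 : ℝ) < N := by exact_mod_cast hN1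
      have hF0 : Pool.Agent.Helper88.SE.F 2 s N ≠ 0 := by
        intro h0
        exact hN (by rw [h0, zero_div])
      have h1 : (0 : ℝ) < (N : ℝ) ^ (1 + s / 2) := Real.rpow_pos_of_pos hN0 _
      have h2 : (0 : ℝ) < (N : ℝ) ^ α := Real.rpow_pos_of_pos hN0 _
      show Pool.Agent.Helper88.SE.F 2 s N / (N : ℝ) ^ (1 + s / 2) /
        (Pool.Agent.Helper88.SE.F 2 s N / (N : ℝ) ^ α) = (N : ℝ) ^ (α - (1 + s / 2))
      rw [Real.rpow_sub hN0]
      field_simp
    have hα : α = 1 + s / 2 := by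
      rcases lt_trichotomy (α - (1 + s / 2)) 0 with h | h | h
      · exfalso
        have h0 : Filter.Tendsto (fun N : ℕ => (N : ℝ) ^ (α - (1 + s / 2))) Filter.atTop
            (nhds 0) := by
          have := (tendsto_rpow_neg_atTop (y := -(α - (1 + s / 2))) (by linarith)).comp
            tendsto_natCast_atTop_atTop
          rw [neg_neg] at this
          exact this
        have := tendsto_nhds_unique hq h0
        exact (div_ne_zero hc.ne hc') this
      · linarith
      · exfalso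
        have h0 : Filter.Tendsto (fun N : ℕ => (N : ℝ) ^ (α - (1 + s / 2))) Filter.atTop
            Filter.atTop := (tendsto_rpow_atTop h).comp tendsto_natCast_atTop_atTop
        exact not_tendsto_nhds_of_tendsto_atTop h0 _ hq
    refine ⟨hα, ?_⟩
    rw [hα] at hlim3
    exact tendsto_nhds_unique hlim3 hlim2

end Pool.Agent.Results.MP_e739cf_an.SecondOrderTermAtMostHexagonal
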